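import Mathlib
import Pool.Agent.H39.BM.Thr
import Pool.Agent.H39.BM.Data

set_option autoImplicit false

/-!
# The restricted density polynomial Hales-Jewett statement for `d = 2` above density `0.31`

The proof attaches to families that are not good a limit law of patterns over finitely many blocks
`1 ≪ 2 ≪ 3 ≪ …`, invariant under merging blocks (iterated shift-invariant means over the sizes of
the blocks). Averages over many blocks show that this law is exchangeable and invariant under
spreading a block over a smaller one, and that its moment matrices are positive semidefinite. After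
averaging over a family and its family of complements, a certificate (a quadratic form that is
nonnegative on the independent sets of a graph with 14 vertices, seven squares, and identities
between pair moments) bounds the density.
-/

namespace Pool.Agent.Results.MP_90b327_co.BlockLimitThreshold

open Finset

/-- For `d = 2` the restricted density polynomial Hales-Jewett statement holds for all densities
above `0.31`: for every `δ > 0.31` there is `N₀` such that for all `N ≥ N₀` every family of more
than `δ 2^(N^2)` subsets of `[N]^2` contains a set `A` and the set `A ∪ γ^2` for some nonempty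
`γ ⊆ [N]` with `A ∩ γ^2 = ∅`. -/
theorem result : ∀ δ : ℝ, (31 : ℝ) / 100 < δ →
    ∃ N₀ : ℕ, ∀ N : ℕ, N₀ ≤ N → ∀ S : Finset (Finset (Fin 2 → Fin N)),
      δ * (2 : ℝ) ^ (N ^ 2) < (S.card : ℝ) →
        ∃ A ∈ S, ∃ γ : Finset (Fin N), γ.Nonempty ∧
          Disjoint A (Fintype.piFinset (fun _ : Fin 2 => γ)) ∧
          A ∪ Fintype.piFinset (fun _ : Fin 2 => γ) ∈ S := by
  intro δ hδ
  obtain ⟨N₀, h⟩ := Pool.Agent.H39.BM.thr_of_bound (31 / 100)
    (fun X hX => Pool.Agent.H39.BM.D1.bound X hX) δ hδ
  exact ⟨N₀, fun N hN S hS => h N hN S hS⟩

end Pool.Agent.Results.MP_90b327_co.BlockLimitThreshold
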