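import Mathlib
import Pool.Agent.H53.CI.Thr2

set_option autoImplicit false

/-!
# The restricted density polynomial Hales-Jewett statement above density `1/2 - (2/9) 2^(-d/2)`

Plant `n` disjoint blocks in a random set: the family then becomes a random subset `F` of the
`n`-cube, and if the family is not good `F` is an independent set of the cube. Write `1/2 - η` for
its density and `a`, `b` for its densities within the even and the odd vertices.

* Hilbert space part. The mean square of `b - a` is multiplied by at most `1 - 2^(-d)` by every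
  further block, if the sizes of the blocks are chosen well (starting from the value `2 D` for one
  block, `D` being the density of the family).
* Isoperimetric part. For every independent set of the `n`-cube `η ≥ c (1 - (b - a)^2)` with
  `c = 1 / (2 √(2 n - 1))` (an induction over `n`, due to helper56), and with the best possible
  constants `c = 12/55`, `40/231`, `2240/15159`, `8064/61567` for `n = 4, 6, 8, 10` (a recursion for
  the possible sizes of the two parts of `F`, evaluated by the kernel).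

Together `1/2 - D ≥ c (1 - 2 D (1 - 2^(-d))^(n-1))` for all `n`. Take `n` about `5/4 2^d`, or
`n = 6` for `d = 3`, or `n = 10` for `d = 4`.
-/

namespace Pool.Agent.Results.MP_90b327_co.HypercubeThreshold

open Finset

/-- `cube d γ` is `γ^d`, the set of all `d`-tuples with entries in `γ`. -/
def cube {N : ℕ} (d : ℕ) (γ : Finset (Fin N)) : Finset (Fin d → Fin N) :=
  Fintype.piFinset (fun _ : Fin d => γ)

/-- A family `S` of subsets of `[N]^d` is good if there are `A ∈ S` and a nonempty `γ ⊆ [N]` with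
`A ∩ γ^d = ∅` and `A ∪ γ^d ∈ S`. -/
def Good {N d : ℕ} (S : Finset (Finset (Fin d → Fin N))) : Prop :=
  ∃ A ∈ S, ∃ γ : Finset (Fin N), γ.Nonempty ∧ Disjoint A (cube d γ) ∧ A ∪ cube d γ ∈ S

/-- `Above d θ`: for every density `δ > θ`, if `N` is large enough, every family of more than
`δ 2^(N^d)` subsets of `[N]^d` is good. -/
def Above (d : ℕ) (θ : ℝ) : Prop :=
  ∀ δ : ℝ, θ < δ → ∃ N₀ : ℕ, ∀ N : ℕ, N₀ ≤ N → ∀ S : Finset (Finset (Fin d → Fin N)),
    δ * (2 : ℝ) ^ (N ^ d) < S.card → Good S

/-- `F` is an independent set of the `n`-cube: it does not contain both ends of an edge. -/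
def Independent {n : ℕ} (F : Finset (Fin n → Bool)) : Prop :=
  ∀ x ∈ F, ∀ i : Fin n, Function.update x i (!x i) ∉ F

/-- the number of coordinates equal to `true` -/
def weight {n : ℕ} (x : Fin n → Bool) : ℕ := (univ.filter (fun i => x i = true)).card

/-- The cube inequality for `n` and `c`: if `F` is an independent set of the `n`-cube with `p`
vertices of even weight and `q` vertices of odd weight, then
`c (1 - ((p - q) / 2^(n-1))^2) ≤ 1/2 - (p + q) / 2^n`. -/
def CubeInequality (n : ℕ) (c : ℝ) : Prop :=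
  ∀ F : Finset (Fin n → Bool), Independent F →
    c * (1 - ((((F.filter (fun x => Even (weight x))).card : ℝ) -
      (F.filter (fun x => ¬ Even (weight x))).card) / 2 ^ (n - 1)) ^ 2)
      ≤ 1 / 2 - (F.card : ℝ) / 2 ^ n

lemma sgn_weight {n : ℕ} (x : Fin n → Bool) :
    Pool.Agent.H53.CI.sgn x = if Even (weight x) then 1 else -1 := by
  unfold Pool.Agent.H53.CI.sgn Pool.Agent.H53.CI.sg weight
  rw [prod_ite, prod_const, prod_const, one_pow, mul_one]
  split_ifs with h
  · exact h.neg_one_pow
  · exact (Nat.not_even_iff_odd.1 h).neg_one_pow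

lemma sums {n : ℕ} (hn : 1 ≤ n) (F : Finset (Fin n → Bool)) (F' : (Fin n → Bool) → Bool)
    (h : ∀ x, F' x = true ↔ x ∈ F) :
    (∑ x, Pool.Agent.H53.CI.ind (F' x) = F.card) ∧
    2 * (∑ x, Pool.Agent.H53.CI.sgn x * Pool.Agent.H53.CI.ind (F' x)) / 2 ^ n
      = (((F.filter (fun x => Even (weight x))).card : ℝ) -
        (F.filter (fun x => ¬ Even (weight x))).card) / 2 ^ (n - 1) := by
  classical
  have hi : ∀ x, Pool.Agent.H53.CI.ind (F' x) = if x ∈ F then 1 else 0 := by
    intro x
    unfold Pool.Agent.H53.CI.ind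
    by_cases hx : x ∈ F
    · rw [if_pos hx, if_pos ((h x).2 hx)]
    · rw [if_neg hx, if_neg (fun h' => hx ((h x).1 h'))]
  constructor
  · rw [sum_congr rfl fun x _ => hi x]
    simp
  · have e1 : ∑ x, Pool.Agent.H53.CI.sgn x * Pool.Agent.H53.CI.ind (F' x)
        = ((F.filter (fun x => Even (weight x))).card : ℝ) -
          (F.filter (fun x => ¬ Even (weight x))).card := by
      have e2 : ∀ x, Pool.Agent.H53.CI.sgn x * Pool.Agent.H53.CI.ind (F' x)
          = if x ∈ F then (if Even (weight x) then (1 : ℝ) else -1) else 0 := by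
        intro x
        rw [sgn_weight, hi]
        by_cases hx : x ∈ F <;> simp [hx]
      rw [sum_congr rfl fun x _ => e2 x, sum_ite_mem, univ_inter, sum_ite]
      simp
      ring
    rw [e1]
    obtain ⟨m, rfl⟩ : ∃ m, n = m + 1 := ⟨n - 1, by omega⟩
    rw [Nat.add_sub_cancel, pow_succ]
    field_simp

lemma cubeInequality_iff {n : ℕ} (hn : 1 ≤ n) (c : ℝ) :
    CubeInequality n c ↔ Pool.Agent.H53.CI.CubeIneq n c := by
  classical
  constructor
  · intro h F hF
    have h1 := h (univ.filter (fun x => F x = true)) ?_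
    · obtain ⟨e1, e2⟩ := sums hn (univ.filter (fun x => F x = true)) F (by simp)
      rw [e1, e2]
      exact h1
    · intro x hx i
      rw [mem_filter] at hx ⊢
      rintro ⟨-, hi⟩
      exact hF.flip x i ⟨hx.2, hi⟩
  · intro h F hF
    have h1 := h (fun x => decide (x ∈ F)) ?_
    · obtain ⟨e1, e2⟩ := sums hn F (fun x => decide (x ∈ F)) (by simp)
      rw [e1, e2] at h1
      exact h1
    · rintro x i hx ⟨h2, h3⟩
      have h4 := hF x (of_decide_eq_true h2) i
      rw [hx] at h4
      exact h4 (of_decide_eq_true h3)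

lemma above_of_statRecurrence {d : ℕ} (hd : 1 ≤ d) {θ : ℝ}
    (h : ∀ δ : ℝ, θ < δ → FractionalColouring.StatRecurrence d δ) : Above d θ :=
  ((FractionalColouring.result d hd θ).out 0 5).2 h

lemma above_mono {d : ℕ} {θ θ' : ℝ} (h : Above d θ) (hθ : θ ≤ θ') : Above d θ' :=
  fun δ hδ => h δ (lt_of_le_of_lt hθ hδ)

/-- (1) Every cube inequality, with `n ≥ 2`, gives the restricted density polynomial Hales-Jewett
statement for all `d` and all densities above `(1/2 - c) / (1 - 2 c (1 - 2^(-d))^(n-1))`.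
(2) The cube inequality holds for all `n ≥ 1` with `c = 1 / (2 √(2 n - 1))`, and (3) for
`n = 4, 6, 8, 10` with `c = 12/55`, `40/231`, `2240/15159`, `8064/61567`.
(4) For every `d ≥ 1` the restricted density polynomial Hales-Jewett statement holds for all
densities above `1/2 - (2/9) 2^(-d/2)`, (5) for all densities above
`151 / (462 - 160 (1 - 2^(-d))^5)` (this is `0.39744` for `d = 3`), and (6) for all densities above
`45439 / (123134 - 32256 (1 - 2^(-d))^9)` (this is `0.43239` for `d = 4`). -/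
theorem result :
    (∀ (d n : ℕ) (c : ℝ), 1 ≤ d → 2 ≤ n → 0 ≤ c → CubeInequality n c →
      Above d ((1 / 2 - c) / (1 - 2 * c * (1 - (1 / 2) ^ d) ^ (n - 1)))) ∧
    (∀ n : ℕ, 1 ≤ n → CubeInequality n (1 / (2 * Real.sqrt (2 * n - 1)))) ∧
    (CubeInequality 4 (12 / 55) ∧ CubeInequality 6 (40 / 231) ∧
      CubeInequality 8 (2240 / 15159) ∧ CubeInequality 10 (8064 / 61567)) ∧
    (∀ d : ℕ, 1 ≤ d → Above d (1 / 2 - 2 / (9 * Real.sqrt (2 ^ d)))) ∧
    (∀ d : ℕ, 1 ≤ d → Above d (151 / (462 - 160 * (1 - (1 / 2) ^ d) ^ 5))) ∧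
    (∀ d : ℕ, 1 ≤ d → Above d (45439 / (123134 - 32256 * (1 - (1 / 2) ^ d) ^ 9))) := by
  have h1 : ∀ (d n : ℕ) (c : ℝ), 1 ≤ d → 2 ≤ n → 0 ≤ c → CubeInequality n c →
      Above d ((1 / 2 - c) / (1 - 2 * c * (1 - (1 / 2) ^ d) ^ (n - 1))) := by
    intro d n c hd hn hc0 hc
    exact above_of_statRecurrence hd fun δ hδ =>
      Pool.Agent.H53.CI.statRecurrence_of_cubeIneq hd hn hc0
        ((cubeInequality_iff (by omega) c).1 hc) hδ
  have h2 : ∀ n : ℕ, 1 ≤ n → CubeInequality n (1 / (2 * Real.sqrt (2 * n - 1))) :=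
    fun n hn => (cubeInequality_iff hn _).2 (Pool.Agent.H53.CI.cubeIneq_sqrt n hn)
  have h4 : CubeInequality 4 (12 / 55) :=
    (cubeInequality_iff (by norm_num) _).2 Pool.Agent.H53.CI.cubeIneq4
  have h6 : CubeInequality 6 (40 / 231) :=
    (cubeInequality_iff (by norm_num) _).2 Pool.Agent.H53.CI.cubeIneq6
  have h8 : CubeInequality 8 (2240 / 15159) :=
    (cubeInequality_iff (by norm_num) _).2 Pool.Agent.H53.CI.cubeIneq8
  have h10 : CubeInequality 10 (8064 / 61567) :=
    (cubeInequality_iff (by norm_num) _).2 Pool.Agent.H53.CI.cubeIneq10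
  have t6 : ∀ d : ℕ, 1 ≤ d → Above d (151 / (462 - 160 * (1 - (1 / 2) ^ d) ^ 5)) := by
    intro d hd
    rw [← Pool.Agent.H53.CI.thr_six]
    exact h1 d 6 (40 / 231) hd (by norm_num) (by norm_num) h6
  have t10 : ∀ d : ℕ, 1 ≤ d → Above d (45439 / (123134 - 32256 * (1 - (1 / 2) ^ d) ^ 9)) := by
    intro d hd
    rw [← Pool.Agent.H53.CI.thr_ten]
    exact h1 d 10 (8064 / 61567) hd (by norm_num) (by norm_num) h10
  refine ⟨h1, h2, ⟨h4, h6, h8, h10⟩, ?_, t6, t10⟩
  intro d hd
  rcases Nat.lt_or_ge d 4 with hd4 | hd4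
  · refine above_mono (t6 d hd) ?_
    have key : ∀ r : ℝ, 0 < r → r ≤ Real.sqrt (2 ^ d) →
        2 / (9 * Real.sqrt (2 ^ d)) ≤ 2 / (9 * r) := by
      intro r hr hr'
      exact div_le_div_of_nonneg_left (by norm_num) (by positivity) (by linarith)
    have hcase : d = 1 ∨ d = 2 ∨ d = 3 := by omega
    rcases hcase with rfl | rfl | rfl
    · have := key (1414 / 1000) (by norm_num)
        (Real.le_sqrt_of_sq_le (by norm_num))
      norm_num at this ⊢ <;> linarith
    · have := key 2 (by norm_num) (Real.le_sqrt_of_sq_le (by norm_num))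
      norm_num at this ⊢ <;> linarith
    · have := key (28 / 10) (by norm_num) (Real.le_sqrt_of_sq_le (by norm_num))
      norm_num at this ⊢ <;> linarith
  · refine above_mono (h1 d (5 * 2 ^ (d - 2) + 1) _ hd ?_ ?_ (h2 (5 * 2 ^ (d - 2) + 1) (by omega)))
      (Pool.Agent.H53.CI.thr_large d hd4)
    · have : 1 ≤ 2 ^ (d - 2) := Nat.one_le_two_pow
      omega
    · have : (0 : ℝ) ≤ Real.sqrt (2 * ((5 * 2 ^ (d - 2) + 1 : ℕ) : ℝ) - 1) := Real.sqrt_nonneg _
      positivity

end Pool.Agent.Results.MP_90b327_co.HypercubeThreshold
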