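import Mathlib
import Pool.Agent.H56.TC.Fam

set_option autoImplicit false

/-!
# Three cubes: the restricted density polynomial Hales-Jewett statement at all densities with the
# union of three cubes in place of one cube

Plant patterns in a random set and let `K P Q` be the (limit) probability that the results for both
patterns `P` and `Q` are members of a family of density `δ`, minus `δ²`. This kernel is positive
semidefinite, and it depends only on the parts of the patterns over the indices involved in the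
difference. From these two properties one gets:
* (absorption) for a block `X` of random size, planting the full cube over `X ∪ Z` has on average the
  same effect as planting the full cube over `X`, provided that the cube over `Z` was empty: the
  averaged vectors for disjoint sets `Z` are orthogonal after subtraction of the vector for `Z = ∅`,
  and have the same inner product with the vector for the union of the sets `Z`;
* (strong locality) common cells which have an index in `X` and an index outside do not matter;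
* (swap) so in the presence of an averaged block planted in one of the two patterns one can add the
  full cube over `Z` to both patterns.
By these moves the average of the kernel at the empty pattern and the union of the cubes over
`X₁ ∪ a ∪ b`, `X₂ ∪ b ∪ c`, `X₃ ∪ c ∪ a` is the average of the kernel at the unions of the cubes over
`a`, `b`, `c` and of those over `X₁`, `X₂`, `X₃`, and this is nonnegative.
-/

namespace Pool.Agent.Results.MP_90b327_co.ThreeCubes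

open Finset Filter Topology Pool.Agent.TH7.DH Pool.Agent.H56.HJ Pool.Agent.H56.TC

/-- `cube d γ` is `γ^d`, the set of all `d`-tuples with entries in `γ`. -/
def cube {N : ℕ} (d : ℕ) (γ : Finset (Fin N)) : Finset (Fin d → Fin N) :=
  Fintype.piFinset (fun _ : Fin d => γ)

/-- Any two of the three sets, but not all three, have a common element. -/
def Triangle {N : ℕ} (γ₁ γ₂ γ₃ : Finset (Fin N)) : Prop :=
  (γ₁ ∩ γ₂).Nonempty ∧ (γ₂ ∩ γ₃).Nonempty ∧ (γ₃ ∩ γ₁).Nonempty ∧ γ₁ ∩ γ₂ ∩ γ₃ = ∅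

/-- the statement about many sets, for fixed parameters -/
def Popular (d M N : ℕ) (ε : ℝ) (S : Finset (Finset (Fin d → Fin N))) : Prop :=
  ∃ γ₁ γ₂ γ₃ : Finset (Fin N), Triangle γ₁ γ₂ γ₃ ∧ (γ₁ ∪ γ₂ ∪ γ₃).card ≤ M ∧
    ((S.card / 2 ^ (N ^ d)) ^ 2 - ε) * 2 ^ (N ^ d) ≤
      ((univ.filter fun A : Finset (Fin d → Fin N) =>
        A \ cube d (γ₁ ∪ γ₂ ∪ γ₃) ∈ S ∧
          (A \ cube d (γ₁ ∪ γ₂ ∪ γ₃)) ∪ (cube d γ₁ ∪ cube d γ₂ ∪ cube d γ₃) ∈ S).card : ℝ)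

lemma mem_cube {N : ℕ} {d : ℕ} {γ : Finset (Fin N)} {c : Fin d → Fin N} :
    c ∈ cube d γ ↔ ∀ t, c t ∈ γ := by
  rw [cube, Fintype.mem_piFinset]

section
variable {d N : ℕ} {s : Fin 6 → ℕ} (φ : (Σ p : Fin 6, Fin (s p)) ↪ Fin N)

/-- the blocks in `[N]` -/
def B (p : Fin 6) : Finset (Fin N) :=
  (univ.map (Function.Embedding.sigmaMk (β := fun p : Fin 6 => Fin (s p)) p)).map φ

lemma mem_B {p : Fin 6} {x : Fin N} : x ∈ B φ p ↔ ∃ w : (Σ p : Fin 6, Fin (s p)), w.1 = p ∧ φ w = x := by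
  unfold B
  simp only [Finset.mem_map, mem_univ, true_and]
  constructor
  · rintro ⟨w, ⟨j, rfl⟩, rfl⟩
    exact ⟨_, rfl, rfl⟩
  · rintro ⟨⟨q, j⟩, rfl, rfl⟩
    exact ⟨_, ⟨j, rfl⟩, rfl⟩

lemma B_ne {p q : Fin 6} {x : Fin N} (h : x ∈ B φ p) (h' : x ∈ B φ q) : p = q := by
  obtain ⟨w, rfl, hw⟩ := (mem_B φ).1 h
  obtain ⟨w', rfl, hw'⟩ := (mem_B φ).1 h'
  rw [φ.injective (hw.trans hw'.symm)]

lemma union_eq : (B φ 0 ∪ B φ 3 ∪ B φ 4) ∪ (B φ 1 ∪ B φ 4 ∪ B φ 5) ∪ (B φ 2 ∪ B φ 5 ∪ B φ 3)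
    = univ.map φ := by
  ext x
  simp only [mem_union, mem_B, Finset.mem_map, mem_univ, true_and]
  constructor
  · intro h
    rcases h with ((((h | h) | h) | ((h | h) | h)) | ((h | h) | h)) <;>
    · obtain ⟨w, -, hw⟩ := h
      exact ⟨w, hw⟩
  · rintro ⟨⟨p, j⟩, h⟩
    fin_cases p
    · exact Or.inl (Or.inl (Or.inl (Or.inl ⟨_, rfl, h⟩)))
    · exact Or.inl (Or.inr (Or.inl (Or.inl ⟨_, rfl, h⟩)))
    · exact Or.inr (Or.inl (Or.inl ⟨_, rfl, h⟩))
    · exact Or.inl (Or.inl (Or.inl (Or.inr ⟨_, rfl, h⟩)))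
    · exact Or.inl (Or.inl (Or.inr ⟨_, rfl, h⟩))
    · exact Or.inl (Or.inr (Or.inr ⟨_, rfl, h⟩))

lemma triangle (hs : ∀ p, 1 ≤ s p) :
    Triangle (B φ 0 ∪ B φ 3 ∪ B φ 4) (B φ 1 ∪ B φ 4 ∪ B φ 5) (B φ 2 ∪ B φ 5 ∪ B φ 3) := by
  have hne : ∀ p, ∃ x, x ∈ B φ p := fun p =>
    ⟨φ ⟨p, ⟨0, hs p⟩⟩, (mem_B φ).2 ⟨_, rfl, rfl⟩⟩
  refine ⟨?_, ?_, ?_, ?_⟩
  · obtain ⟨x, hx⟩ := hne 4
    exact ⟨x, by simp [hx]⟩
  · obtain ⟨x, hx⟩ := hne 5
    exact ⟨x, by simp [hx]⟩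
  · obtain ⟨x, hx⟩ := hne 3
    exact ⟨x, by simp [hx]⟩
  · ext x
    simp only [mem_inter, mem_union, notMem_empty, iff_false]
    rintro ⟨⟨(h1 | h1) | h1, (h2 | h2) | h2⟩, (h3 | h3) | h3⟩ <;>
      first
        | exact absurd (B_ne φ h1 h2) (by decide)
        | exact absurd (B_ne φ h2 h3) (by decide)

lemma ow_false (A : Finset (Fin d → Fin N)) :
    ow φ (fun _ => False) A = A \ cube d ((B φ 0 ∪ B φ 3 ∪ B φ 4) ∪ (B φ 1 ∪ B φ 4 ∪ B φ 5)
      ∪ (B φ 2 ∪ B φ 5 ∪ B φ 3)) := by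
  rw [union_eq]
  ext c
  rw [mem_ow, Finset.mem_sdiff, mem_cube]
  have h : (∃ e : Fin d → (Σ p : Fin 6, Fin (s p)), (fun t => φ (e t)) = c)
      ↔ ∀ t, c t ∈ univ.map φ := by
    constructor
    · rintro ⟨e, rfl⟩ t
      exact mem_map_of_mem _ (mem_univ _)
    · intro h
      have : ∀ t, ∃ w, φ w = c t := fun t => by
        obtain ⟨w, -, hw⟩ := Finset.mem_map.1 (h t)
        exact ⟨w, hw⟩
      choose e he using this
      exact ⟨e, funext he⟩
  rw [h]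
  simp only [and_false, exists_false, false_or]
  exact and_comm

lemma ow_UC (A : Finset (Fin d → Fin N)) :
    ow φ (UC d s) A = (A \ cube d ((B φ 0 ∪ B φ 3 ∪ B φ 4) ∪ (B φ 1 ∪ B φ 4 ∪ B φ 5)
      ∪ (B φ 2 ∪ B φ 5 ∪ B φ 3))) ∪ (cube d (B φ 0 ∪ B φ 3 ∪ B φ 4)
        ∪ cube d (B φ 1 ∪ B φ 4 ∪ B φ 5) ∪ cube d (B φ 2 ∪ B φ 5 ∪ B φ 3)) := by
  rw [← ow_false φ]
  ext c
  rw [mem_ow, mem_union, mem_ow]
  have key : ∀ (p q r : Fin 6), c ∈ cube d (B φ p ∪ B φ q ∪ B φ r) ↔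
      ∃ e : Fin d → (Σ p : Fin 6, Fin (s p)), (fun t => φ (e t)) = c ∧
        cs (((univ.map (Function.Embedding.sigmaMk p) : Finset (Σ p : Fin 6, Fin (s p))) : Set _)
          ∪ (univ.map (Function.Embedding.sigmaMk q) : Finset (Σ p : Fin 6, Fin (s p)))
          ∪ (univ.map (Function.Embedding.sigmaMk r) : Finset (Σ p : Fin 6, Fin (s p)))) e := by
    intro p q r
    rw [mem_cube]
    constructor
    · intro h
      have : ∀ t, ∃ w : (Σ p : Fin 6, Fin (s p)), φ w = c t ∧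
          w ∈ (((univ.map (Function.Embedding.sigmaMk p) : Finset (Σ p : Fin 6, Fin (s p))) :
              Set (Σ p : Fin 6, Fin (s p)))
          ∪ (univ.map (Function.Embedding.sigmaMk q) : Finset (Σ p : Fin 6, Fin (s p)))
          ∪ (univ.map (Function.Embedding.sigmaMk r) : Finset (Σ p : Fin 6, Fin (s p)))) := by
        intro t
        have h1 := h t
        simp only [mem_union, B, Finset.mem_map] at h1
        rcases h1 with (⟨w, hw, h2⟩ | ⟨w, hw, h2⟩) | ⟨w, hw, h2⟩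
        · exact ⟨w, h2, Or.inl (Or.inl (mem_coe.2 (Finset.mem_map.2 hw)))⟩
        · exact ⟨w, h2, Or.inl (Or.inr (mem_coe.2 (Finset.mem_map.2 hw)))⟩
        · exact ⟨w, h2, Or.inr (mem_coe.2 (Finset.mem_map.2 hw))⟩
      choose e he he' using this
      exact ⟨e, funext he, he'⟩
    · rintro ⟨e, rfl, he⟩ t
      simp only [mem_union, B]
      rcases he t with (h | h) | h
      · exact Or.inl (Or.inl (mem_map_of_mem _ (mem_coe.1 h)))
      · exact Or.inl (Or.inr (mem_map_of_mem _ (mem_coe.1 h)))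
      · exact Or.inr (mem_map_of_mem _ (mem_coe.1 h))
  rw [mem_union, mem_union, key, key, key]
  constructor
  · rintro (⟨e, he, (h | h) | h⟩ | h)
    · exact Or.inr (Or.inl (Or.inl ⟨e, he, h⟩))
    · exact Or.inr (Or.inl (Or.inr ⟨e, he, h⟩))
    · exact Or.inr (Or.inr ⟨e, he, h⟩)
    · exact Or.inl (Or.inr h)
  · rintro ((⟨e, he, h⟩ | h) | ((⟨e, he, h⟩ | ⟨e, he, h⟩) | ⟨e, he, h⟩))
    · exact h.elim
    · exact Or.inr h
    · exact Or.inl ⟨e, he, Or.inl (Or.inl h)⟩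
    · exact Or.inl ⟨e, he, Or.inl (Or.inr h)⟩
    · exact Or.inl ⟨e, he, Or.inr h⟩

/-- a popular embedding gives the statement about many sets -/
lemma popular_of (hs : ∀ p, 1 ≤ s p) (M : ℕ) (hM : ∑ p, s p ≤ M) (ε : ℝ)
    (S : Finset (Finset (Fin d → Fin N)))
    (h : (S.card / 2 ^ (N ^ d)) ^ 2 - ε ≤
      av (fun A => ind S (ow φ (fun _ => False) A) * ind S (ow φ (UC d s) A))) :
    Popular d M N ε S := by
  classical
  refine ⟨_, _, _, triangle φ hs, ?_, ?_⟩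
  · rw [union_eq, card_map, card_univ, Fintype.card_sigma]
    simpa using hM
  · have h1 : av (fun A => ind S (ow φ (fun _ => False) A) * ind S (ow φ (UC d s) A))
        * 2 ^ (N ^ d) = ((univ.filter fun A : Finset (Fin d → Fin N) =>
        A \ cube d ((B φ 0 ∪ B φ 3 ∪ B φ 4) ∪ (B φ 1 ∪ B φ 4 ∪ B φ 5) ∪ (B φ 2 ∪ B φ 5 ∪ B φ 3)) ∈ S ∧
          (A \ cube d ((B φ 0 ∪ B φ 3 ∪ B φ 4) ∪ (B φ 1 ∪ B φ 4 ∪ B φ 5)
            ∪ (B φ 2 ∪ B φ 5 ∪ B φ 3))) ∪ (cube d (B φ 0 ∪ B φ 3 ∪ B φ 4)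
            ∪ cube d (B φ 1 ∪ B φ 4 ∪ B φ 5) ∪ cube d (B φ 2 ∪ B φ 5 ∪ B φ 3)) ∈ S).card : ℝ) := by
      have h2 : ((Fintype.card (Finset (Fin d → Fin N)) : ℕ) : ℝ) = 2 ^ (N ^ d) := by
        rw [Fintype.card_finset]
        simp
      unfold av
      rw [h2, div_mul_cancel₀ _ (by positivity)]
      have h3 : ∀ A, ind S (ow φ (fun _ => False) A) * ind S (ow φ (UC d s) A)
          = if (A \ cube d ((B φ 0 ∪ B φ 3 ∪ B φ 4) ∪ (B φ 1 ∪ B φ 4 ∪ B φ 5)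
            ∪ (B φ 2 ∪ B φ 5 ∪ B φ 3)) ∈ S ∧
          (A \ cube d ((B φ 0 ∪ B φ 3 ∪ B φ 4) ∪ (B φ 1 ∪ B φ 4 ∪ B φ 5)
            ∪ (B φ 2 ∪ B φ 5 ∪ B φ 3))) ∪ (cube d (B φ 0 ∪ B φ 3 ∪ B φ 4)
            ∪ cube d (B φ 1 ∪ B φ 4 ∪ B φ 5) ∪ cube d (B φ 2 ∪ B φ 5 ∪ B φ 3)) ∈ S)
            then (1 : ℝ) else 0 := by
        intro A
        rw [ow_false φ, ow_UC φ]
        unfold ind
        split_ifs <;> simp_all
      rw [sum_congr rfl fun A _ => h3 A, sum_boole]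
    rw [← h1]
    exact mul_le_mul_of_nonneg_right h (by positivity)

end

/-- many sets, for all large `N` -/
theorem popular (d : ℕ) (hd : 1 ≤ d) (ε : ℝ) (hε : 0 < ε) :
    ∃ M N₀ : ℕ, ∀ N : ℕ, N₀ ≤ N → ∀ S : Finset (Finset (Fin d → Fin N)), Popular d M N ε S := by
  classical
  by_contra hcon
  push Not at hcon
  -- the bad pairs
  set P : ℕ → ℕ → Prop := fun k N =>
    ∃ S : Finset (Finset (Fin d → Fin N)), ¬ Popular d k N ε S with hP
  have hex : ∀ k : ℕ, ∃ N, k ≤ N ∧ P k N := by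
    intro k
    obtain ⟨N, hN, S, hS⟩ := hcon k k
    exact ⟨N, hN, S, hS⟩
  choose a ha haP using hex
  set kk : ℕ → ℕ := fun N => Nat.findGreatest (fun k => P k N) N with hkk
  have hS : ∀ N : ℕ, ∃ S : Finset (Finset (Fin d → Fin N)),
      P (kk N) N → ¬ Popular d (kk N) N ε S := by
    intro N
    by_cases h : P (kk N) N
    · obtain ⟨S, hS⟩ := h
      exact ⟨S, fun _ => hS⟩
    · exact ⟨∅, fun h' => (h h').elim⟩
  choose S hS using hS
  set V : Ultrafilter ℕ := (hyperfilter ℕ).map a with hV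
  have hVle : (V : Filter ℕ) ≤ atTop := by
    have h1 : Tendsto a atTop atTop := tendsto_atTop_mono ha tendsto_id
    rw [hV, Ultrafilter.coe_map]
    exact (Filter.map_mono Nat.hyperfilter_le_atTop).trans h1
  have hbad : ∀ k : ℕ, ∀ᶠ N in (V : Filter ℕ), k ≤ kk N ∧ ¬ Popular d (kk N) N ε (S N) := by
    intro k
    rw [hV, Ultrafilter.coe_map, Filter.eventually_map]
    have h1 : ∀ᶠ j in (hyperfilter ℕ : Filter ℕ), k ≤ j :=
      Nat.hyperfilter_le_atTop (eventually_ge_atTop k)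
    filter_upwards [h1] with j hj
    have h2 : j ≤ kk (a j) := Nat.le_findGreatest (ha j) (haP j)
    have h3 : P (kk (a j)) (a j) := Nat.findGreatest_spec (P := fun k => P k (a j)) (ha j) (haP j)
    exact ⟨hj.trans h2, hS (a j) h3⟩
  -- the limit density
  have hbdd : Bdd (fun N => av (fun A => ind (S N) A)) :=
    ⟨1, fun N => av_abs_le zero_le_one fun A => ind_abs _ _⟩
  have hD := ulim_tendsto (V := V) hbdd
  set D := ulim V (fun N => av (fun A => ind (S N) A)) with hDdef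
  have hD0 : 0 ≤ D := ge_of_tendsto' hD fun N => av_nonneg fun A => ind_nonneg _ _
  have hD1 : D ≤ 1 := le_of_tendsto' hD fun N =>
    (le_abs_self _).trans (av_abs_le zero_le_one fun A => ind_abs _ _)
  obtain ⟨s, hs, hev⟩ := fam hd V hVle S D hD0 hD1 hD (ε / 2) (by positivity)
  have h1 : ∀ᶠ N in (V : Filter ℕ), (av (fun A => ind (S N) A)) ^ 2 < D ^ 2 + ε / 2 :=
    (hD.pow 2).eventually (gt_mem_nhds (by linarith))
  obtain ⟨N, ⟨φ, hφ⟩, hN1, hN2, hN3⟩ := (hev.and (h1.and (hbad (∑ p, s p)))).exists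
  refine hN3 (popular_of φ hs _ hN2 ε (S N) ?_)
  have h2 : ((Fintype.card (Finset (Fin d → Fin N)) : ℕ) : ℝ) = 2 ^ (N ^ d) := by
    rw [Fintype.card_finset]
    simp
  rw [av_ind, h2] at hN1
  linarith

/-- **Theorem.** Let `d ≥ 1`.
(1) For every `δ > 0` and all large `N` every family `S` of more than `δ 2^(N^d)` subsets of `[N]^d`
contains a set `A` and the set `A ∪ γ₁^d ∪ γ₂^d ∪ γ₃^d` for some `γ₁, γ₂, γ₃ ⊆ [N]`, of which any
two, but not all three, have a common element, with `A` disjoint from `γ₁^d ∪ γ₂^d ∪ γ₃^d`.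
(2) For every `ε > 0` there are `M` and `N₀` such that for all `N ≥ N₀` and all families `S` of
subsets of `[N]^d`, of any density `δ`, there are such `γ₁, γ₂, γ₃` with at most `M` elements
together and with the following property: for at least `(δ² - ε) 2^(N^d)` sets `A` both
`A' = A ∖ (γ₁ ∪ γ₂ ∪ γ₃)^d` and `A' ∪ γ₁^d ∪ γ₂^d ∪ γ₃^d` are members of `S`. -/
theorem result : ∀ d : ℕ, 1 ≤ d →
    (∀ δ : ℝ, 0 < δ → ∃ N₀ : ℕ, ∀ N : ℕ, N₀ ≤ N → ∀ S : Finset (Finset (Fin d → Fin N)),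
      δ * 2 ^ (N ^ d) < S.card → ∃ A ∈ S, ∃ γ₁ γ₂ γ₃ : Finset (Fin N), Triangle γ₁ γ₂ γ₃ ∧
        Disjoint A (cube d γ₁ ∪ cube d γ₂ ∪ cube d γ₃) ∧
        A ∪ (cube d γ₁ ∪ cube d γ₂ ∪ cube d γ₃) ∈ S) ∧
    (∀ ε : ℝ, 0 < ε → ∃ M N₀ : ℕ, ∀ N : ℕ, N₀ ≤ N → ∀ S : Finset (Finset (Fin d → Fin N)),
      ∃ γ₁ γ₂ γ₃ : Finset (Fin N), Triangle γ₁ γ₂ γ₃ ∧ (γ₁ ∪ γ₂ ∪ γ₃).card ≤ M ∧
        ((S.card / 2 ^ (N ^ d)) ^ 2 - ε) * 2 ^ (N ^ d) ≤
          ((univ.filter fun A : Finset (Fin d → Fin N) =>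
            A \ cube d (γ₁ ∪ γ₂ ∪ γ₃) ∈ S ∧
              (A \ cube d (γ₁ ∪ γ₂ ∪ γ₃)) ∪ (cube d γ₁ ∪ cube d γ₂ ∪ cube d γ₃) ∈ S).card : ℝ)) := by
  intro d hd
  refine ⟨fun δ hδ => ?_, fun ε hε => popular d hd ε hε⟩
  obtain ⟨M, N₀, h⟩ := popular d hd (δ ^ 2 / 2) (by positivity)
  refine ⟨N₀, fun N hN S hS => ?_⟩
  obtain ⟨γ₁, γ₂, γ₃, hT, -, hc⟩ := h N hN S
  have hp : (0 : ℝ) < 2 ^ (N ^ d) := by positivity
  have h1 : δ < S.card / 2 ^ (N ^ d) := by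
    rw [lt_div_iff₀ hp]
    exact hS
  have h2 : 0 < ((S.card / 2 ^ (N ^ d) : ℝ) ^ 2 - δ ^ 2 / 2) * 2 ^ (N ^ d) := by
    refine mul_pos ?_ hp
    nlinarith
  have h3 := h2.trans_le hc
  have h4 : (univ.filter fun A : Finset (Fin d → Fin N) =>
        A \ cube d (γ₁ ∪ γ₂ ∪ γ₃) ∈ S ∧
          (A \ cube d (γ₁ ∪ γ₂ ∪ γ₃)) ∪ (cube d γ₁ ∪ cube d γ₂ ∪ cube d γ₃) ∈ S).Nonempty := by
    rw [← card_pos]
    exact_mod_cast h3
  obtain ⟨A, hA⟩ := h4
  obtain ⟨-, hA1, hA2⟩ := mem_filter.1 hA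
  refine ⟨_, hA1, γ₁, γ₂, γ₃, hT, ?_, hA2⟩
  rw [Finset.disjoint_left]
  intro c hc1 hc2
  refine (Finset.mem_sdiff.1 hc1).2 (mem_cube.2 fun t => ?_)
  rw [mem_union, mem_union, mem_cube, mem_cube, mem_cube] at hc2
  rw [mem_union, mem_union]
  rcases hc2 with (h | h) | h
  · exact Or.inl (Or.inl (h t))
  · exact Or.inl (Or.inr (h t))
  · exact Or.inr (h t)

end Pool.Agent.Results.MP_90b327_co.ThreeCubes
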